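import Pool.Agent.W424.FR.Defs

/-! FR-HL: the half-plane conclusion. -/

set_option autoImplicit false

namespace Pool.Agent.W991.FR

open H974 H12S Finset H389NS H984P H984N MeasureTheory Filter Topology
open Pool.Agent.W424.FR

theorem t_HL : S_HL := by
  intro hOP hLIM hEV hP φ hφ μ hμ
  obtain ⟨C, hC, hP⟩ := hP
  have hδ0 : Tendsto (fun i => ((φ i : ℕ) : ℝ) ^ (-(4/7) : ℝ)) atTop (𝓝 0) :=
    (tendsto_rpow_neg_atTop (by norm_num : (0 : ℝ) < 4/7)).comp (tendsto_natCast_atTop_atTop.comp hφ)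
  have h := hLIM hOP hEV {z : ℂ | 0 < z.im} (isOpen_lt continuous_const Complex.continuous_im)
    C (2/3) hC (by norm_num) (by norm_num) (fun i => H984H.lawH (φ i)) μ hμ (by
      intro z r d ζ hr hrd hb hζ
      have hev1 : ∀ᶠ i in atTop, ((φ i : ℕ) : ℝ) ^ (-(4/7) : ℝ) < r := hδ0.eventually_lt_const hr
      have hev2 : ∀ᶠ i in atTop, ((φ i : ℕ) : ℝ) ^ (-(4/7) : ℝ) < ζ / 10 :=
        hδ0.eventually_lt_const (by positivity)
      filter_upwards [hev1, hev2, hφ.eventually_ge_atTop 1] with i hi1 hi2 hi3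
      rw [H984H.lawH_apply _ (hOP z r (d / 2) ζ).measurableSet]
      apply ENNReal.ofReal_le_ofReal
      exact hP z r d ζ (φ i) hr hrd hb hi3 hi1.le (by linarith))
  filter_upwards [h] with f hf
  refine hf.trans (le_of_eq ?_)
  have e : (2 : ℝ) - 2 / 3 = 4 / 3 := by norm_num
  rw [e, ENNReal.ofReal_div_of_pos (by norm_num)]
  norm_num

end Pool.Agent.W991.FR
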